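import Pool.Agent.H18.GW.Ext

/-! MP_0b603e_al, gwd_modules, row FW: if `w` depends only on the cosets of `N` then `w(R)` is
finite. -/

set_option autoImplicit false

open scoped commutatorElement

namespace Pool.Agent.H26.GWD

open Pool.Agent.H11.EL Pool.Agent.H11.KT Pool.Agent.H18.GW

theorem finite_of_div (M : Type) [CommGroup M] (hfg : Group.FG M) (p : ℕ) (hp : p.Prime)
    (h : ∀ x : M, ∃ y : M, y ^ p = x) : Finite M := by
  have h1 : Module.Finite ℤ (Additive M) := by
    rw [Module.Finite.iff_addGroup_fg]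
    exact AddGroup.fg_iff_mul_fg.2 hfg
  obtain ⟨r, hr1, hr2⟩ := Submodule.exists_sub_one_mem_and_smul_eq_zero_of_fg_of_le_smul
    (Ideal.span {(p : ℤ)}) (⊤ : Submodule ℤ (Additive M)) h1.fg_top (by
      intro x _
      obtain ⟨y, hy⟩ := h (Additive.toMul x)
      have h2 : x = (p : ℤ) • (Additive.ofMul y) := by
        apply Additive.toMul.injective
        rw [← hy]
        simp
      rw [h2]
      exact Submodule.smul_mem_smul (Ideal.mem_span_singleton_self _) Submodule.mem_top)
  have hr0 : r ≠ 0 := by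
    intro h0
    rw [h0, Ideal.mem_span_singleton] at hr1
    have h3 : (p : ℤ) ∣ 1 := by
      have := (dvd_neg (a := (p : ℤ))).2 hr1
      simpa using this
    have h4 : p ∣ 1 := by exact_mod_cast h3
    exact hp.one_lt.ne' (Nat.dvd_one.1 h4)
  have h5 : Module.IsTorsion ℤ (Additive M) := by
    intro x
    exact ⟨⟨r, mem_nonZeroDivisors_of_ne_zero hr0⟩, hr2 x Submodule.mem_top⟩
  have h6 : Finite (Additive M) := Module.finite_of_fg_torsion _ h5
  exact Finite.of_equiv _ (Additive.toMul (α := M))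

theorem pf_FW (hFM : T_FM) : T_FW := by
  intro R _ hfg N hN hNi hNn r w hab hdep
  obtain ⟨p, hp, hdiv⟩ := hFM R hfg N hN hNi hNn r w hab hdep
  obtain ⟨M, hM⟩ : ∃ M : Subgroup R, M = Vb w R ⊓ N := ⟨_, rfl⟩
  have hMf : Finite M := by
    let inst : CommGroup M := { (inferInstance : Group M) with
      mul_comm := by
        rintro ⟨a, ha⟩ ⟨b, hb⟩
        apply Subtype.ext
        rw [hM] at ha hb
        exact hab a ha.1 b hb.1 }
    refine @finite_of_div M inst ((Group.fg_iff_subgroup_fg M).2 (hfg M)) p hp ?_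
    rintro ⟨x, hx⟩
    have hx' := hx
    rw [hM] at hx'
    obtain ⟨y, hy, hyx⟩ := hdiv x hx'
    refine ⟨⟨y, by rw [hM]; exact hy⟩, ?_⟩
    apply Subtype.ext
    exact hyx
  have h1 : Finite (N.subgroupOf (Vb w R)) := by
    refine Finite.of_injective (β := M) (fun x => ⟨(x : Vb w R), by
      rw [hM]
      exact ⟨x.1.2, x.2⟩⟩) ?_
    intro a b hab'
    apply Subtype.ext
    apply Subtype.ext
    exact congrArg (fun z : M => (z : R)) hab'
  have h2 : (N.subgroupOf (Vb w R)).index ≠ 0 := by
    have : (N.subgroupOf (Vb w R)).FiniteIndex := inferInstance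
    exact this.index_ne_zero
  have h3 := Subgroup.card_mul_index (N.subgroupOf (Vb w R))
  apply Nat.finite_of_card_ne_zero
  rw [← h3]
  exact Nat.mul_ne_zero Nat.card_pos.ne' h2

end Pool.Agent.H26.GWD
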