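import Pool.Agent.H18.GW.Ext

/-! MP_0b603e_al, gwd_modules, row GC: the terms of the lower central series: bounded products of
simple commutators. -/

set_option autoImplicit false

open scoped commutatorElement

namespace Pool.Agent.H26.GWD

open Pool.Agent.H11.EL Pool.Agent.H11.KT Pool.Agent.H18.GW

theorem Px_pat {G : Type} [Group G] (s : ℕ) (n : ℕ → G) (k : ℕ) : Px (2 * k) (pat s n) = 1 := by
  induction k with
  | zero => simp
  | succ k ih =>
    have e0 : pat s n (2 * k) = n (k % s) := by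
      have h1 : (2 * k) % 2 = 0 := by omega
      have h2 : (2 * k) / 2 = k := by omega
      have h5 : pat s n (2 * k) = n (2 * k / 2 % s) := if_pos h1
      rw [h5, h2]
    have e1 : pat s n (2 * k + 1) = (n (k % s))⁻¹ := by
      have h1 : ¬ (2 * k + 1) % 2 = 0 := by omega
      have h2 : (2 * k + 1) / 2 = k := by omega
      have h5 : pat s n (2 * k + 1) = (n ((2 * k + 1) / 2 % s))⁻¹ := if_neg h1
      rw [h5, h2]
    rw [show 2 * (k + 1) = 2 * k + 1 + 1 by ring, Px_succ, Px_succ, e0, e1, ih]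
    simp

/-- the commutators with elements of `X` -/
def CX {G : Type} [Group G] (X : Subgroup G) : Set G := {z | ∃ x ∈ X, ∃ y : G, z = ⁅x, y⁆}

theorem BP_Ps {G : Type} [Group G] (X : Subgroup G) (hX : X.Normal) (t x : ℕ → G)
    (hx : ∀ i, x i ∈ X) (n : ℕ) : BP (CX X) n (Ps n t x) := by
  induction n with
  | zero => exact BP.one _ _
  | succ n ih =>
    rw [Ps_succ]
    refine ih.mul (BP.of_mem ?_)
    refine ⟨Px n t * x n * (Px n t)⁻¹, hX.conj_mem _ (hx n) _, Px n t * t n * (Px n t)⁻¹, ?_⟩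
    simp only [commutatorElement_def]
    group

theorem scm_conj_range {G : Type} [Group G] (c : ℕ) {g : G}
    (hg : g ∈ Set.range (scm (G := G) c)) (x : G) :
    x * g * x⁻¹ ∈ Set.range (scm (G := G) c) := by
  obtain ⟨h, rfl⟩ := hg
  exact ⟨fun i => x * h i * x⁻¹, (scm_conj c h x).symm⟩

theorem BP_conj {G : Type} [Group G] (c : ℕ) {k : ℕ} {g : G}
    (hg : BP (Set.range (scm (G := G) c)) k g) (x : G) :
    BP (Set.range (scm (G := G) c)) k (x * g * x⁻¹) := by
  obtain ⟨L, h1, h2, rfl⟩ := hg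
  refine ⟨L.map (MulAut.conj x), by simpa using h1, ?_, ?_⟩
  · intro z hz
    obtain ⟨y, hy, rfl⟩ := List.mem_map.1 hz
    rcases h2 y hy with h | h
    · exact Or.inl (scm_conj_range c h x)
    · right
      rw [← map_inv]
      exact scm_conj_range c h x
  · have := (map_list_prod (MulAut.conj x).toMonoidHom L).symm
    exact this

theorem scm_comm_mem {G : Type} [Group G] (c : ℕ) {g : G}
    (hg : g ∈ Set.range (scm (G := G) c)) (y : G) :
    ⁅g, y⁆ ∈ Set.range (scm (G := G) (c + 1)) := by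
  obtain ⟨h, rfl⟩ := hg
  refine ⟨fun i => if i ≤ c then h i else y, ?_⟩
  show ⁅scm c (fun i => if i ≤ c then h i else y), (if c + 1 ≤ c then h (c + 1) else y)⁆ = _
  rw [if_neg (by omega), scm_congr c (fun i => if i ≤ c then h i else y) h
    (fun i hi => if_pos hi)]

theorem BP_comm {G : Type} [Group G] (c : ℕ) (y : G) : ∀ (L : List G),
    (∀ x ∈ L, x ∈ Set.range (scm (G := G) c) ∨ x⁻¹ ∈ Set.range (scm (G := G) c)) →
    BP (Set.range (scm (G := G) (c + 1))) L.length ⁅L.prod, y⁆ := by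
  intro L
  induction L with
  | nil =>
    intro _
    simpa using BP.one (Set.range (scm (G := G) (c + 1))) 0
  | cons x L ih =>
    intro h
    have h1 := ih fun z hz => h z (List.mem_cons_of_mem x hz)
    have h2 : ⁅x * L.prod, y⁆ = (x * ⁅L.prod, y⁆ * x⁻¹) * ⁅x, y⁆ := by
      simp only [commutatorElement_def]
      group
    rw [List.prod_cons, List.length_cons, h2]
    refine (BP_conj (c + 1) h1 x).mul ?_
    rcases h x List.mem_cons_self with hx | hx
    · exact BP.of_mem (scm_comm_mem c hx y)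
    · have h3 : ⁅x, y⁆ = x * ⁅x⁻¹, y⁆⁻¹ * x⁻¹ := by
        simp only [commutatorElement_def]
        group
      rw [h3]
      exact BP_conj (c + 1) (BP.of_mem (scm_comm_mem c hx y)).inv x

theorem pf_GC (hNS : T_NS) : T_GC := by
  intro c d
  induction c with
  | zero =>
    refine ⟨1, ?_⟩
    intro G _ _ _ s _ g _
    exact BP.of_mem ⟨fun _ => g, rfl⟩
  | succ c ih =>
    obtain ⟨n₀, hn₀⟩ := ih
    refine ⟨2 * d * (4 * (d + 3)) * n₀, ?_⟩
    intro G _ _ hG s hs g hg
    have hX : ((⊤ : Subgroup G).lowerCentralSeries c).Normal := lcs_normal inferInstance c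
    obtain ⟨ns, hns⟩ : ∃ ns : ℕ → G, ∀ i : Fin d, ns i = s i :=
      ⟨fun i => if h : i < d then s ⟨i, h⟩ else 1, fun i => by simp⟩
    have hcl : Subgroup.closure (en d ns) = ⊤ := by
      rw [eq_top_iff, ← hs]
      apply Subgroup.closure_mono
      rintro _ ⟨i, rfl⟩
      exact ⟨i, i.2, (hns i).symm⟩
    rw [Subgroup.lowerCentralSeries_succ] at hg
    obtain ⟨c', hc', hPx, -⟩ := hNS d d G hG s hs ns hcl _ hX g hg
    rw [Px_cj, mul_assoc 2 d, Px_pat, mul_one] at hPx
    have h1 := BP_Ps _ hX (pat d ns) c' hc' (2 * (d * (4 * (d + 3))))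
    rw [hPx, ← mul_assoc 2 d] at h1
    refine BP.trans h1 ?_
    rintro _ ⟨x, hx, y, rfl⟩
    obtain ⟨L, hL1, hL2, rfl⟩ := hn₀ G hG s hs x hx
    exact (BP_comm c y L hL2).mono hL1

end Pool.Agent.H26.GWD
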