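import Pool.Agent.H18.GW.Ext
import Pool.Agent.H47.EL.ST

/-! MP_0b603e_al, gwd_modules, row HC: hypercentral normal subgroups. -/

set_option autoImplicit false

open scoped commutatorElement

namespace Pool.Agent.H26.GWD

open Pool.Agent.H11.EL Pool.Agent.H11.KT Pool.Agent.H18.GW Pool.Agent.H47.EL

section nb

variable {G : Type} [Group G]

theorem hc_central {N : Subgroup G} {c : ℕ} (h : itc N (c + 2) = ⊥) {z : G}
    (hz : z ∈ itc N (c + 1)) (g : G) : z * g = g * z := by
  have h1 : ⁅z, g⁆ ∈ itc N (c + 2) := by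
    rw [show c + 2 = (c + 1) + 1 from rfl, itc_succ]
    exact Subgroup.commutator_mem_commutator hz (Subgroup.mem_top g)
  rw [h, Subgroup.mem_bot] at h1
  exact commutatorElement_eq_one_iff_mul_comm.1 h1

theorem hc_mem {N : Subgroup G} {c : ℕ} {v : G} (hv : v ∈ itc N c) (g : G) :
    ⁅g, v⁆ ∈ itc N (c + 1) := by
  rw [itc_succ]
  have h1 : ⁅v, g⁆ ∈ ⁅itc N c, (⊤ : Subgroup G)⁆ :=
    Subgroup.commutator_mem_commutator hv (Subgroup.mem_top g)
  rw [← commutatorElement_inv]
  exact Subgroup.inv_mem _ h1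

theorem hc_cp_mem {N : Subgroup G} {c : ℕ} (y v : ℕ → G)
    (hv : ∀ i, v i ∈ itc N c) (n : ℕ) :
    cp n y v ∈ itc N (c + 1) := by
  induction n with
  | zero => exact Subgroup.one_mem _
  | succ n ih => rw [cp_succ]; exact Subgroup.mul_mem _ ih (hc_mem (hv n) _)

theorem hc_cp_mul {N : Subgroup G} {c : ℕ} (h : itc N (c + 2) = ⊥) (y u v : ℕ → G)
    (hv : ∀ i, v i ∈ itc N c) (n : ℕ) :
    cp n y (fun i => u i * v i) = cp n y u * cp n y v := by
  induction n with
  | zero => simp
  | succ n ih =>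
    rw [cp_succ, cp_succ, cp_succ, ih]
    have h1 : ⁅y n, u n * v n⁆ = ⁅y n, u n⁆ * (u n * ⁅y n, v n⁆ * (u n)⁻¹) := by
      simp only [commutatorElement_def]; group
    have h2 : u n * ⁅y n, v n⁆ * (u n)⁻¹ = ⁅y n, v n⁆ := by
      rw [← hc_central h (hc_mem (hv n) (y n)) (u n)]; group
    have h3 := hc_central h (hc_cp_mem y v hv n) ⁅y n, u n⁆
    rw [h1, h2, ← mul_assoc, mul_assoc (cp n y u), h3]
    simp only [mul_assoc]

theorem hc_cp_one (y : ℕ → G) (n : ℕ) : cp n y (fun _ => 1) = 1 := by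
  induction n with
  | zero => simp
  | succ n ih => rw [cp_succ, ih]; simp

theorem hc_single (y : ℕ → G) (w : G) (j : ℕ) : ∀ n, j < n →
    cp n y (fun i => if i = j then w else 1) = ⁅y j, w⁆ := by
  intro n
  induction n with
  | zero => intro h; omega
  | succ n ih =>
    intro h
    rw [cp_succ]
    by_cases hj : j < n
    · rw [ih hj]
      have : ¬ (n = j) := by omega
      simp [this]
    · have hjn : n = j := by omega
      have h1 : cp n y (fun i => if i = j then w else 1) = cp n y (fun _ => 1) := by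
        apply cp_congr (fun _ _ => rfl)
        intro i hi
        have : ¬ (i = j) := by omega
        simp [this]
      rw [h1, hc_cp_one, hjn]
      simp

theorem hc_span {N : Subgroup G} {c : ℕ} (h : itc N (c + 2) = ⊥) (d : ℕ)
    (y : ℕ → G) (hy : Subgroup.closure {g | ∃ i < d, g = y i} = ⊤) :
    ∀ z ∈ itc N (c + 1), ∃ u : ℕ → G, (∀ i, u i ∈ itc N c) ∧ z = cp d y u := by
  -- the subgroup of the products
  let S : Subgroup G :=
    { carrier := {z | ∃ u : ℕ → G, (∀ i, u i ∈ itc N c) ∧ z = cp d y u}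
      one_mem' := ⟨fun _ => 1, fun _ => Subgroup.one_mem _, (hc_cp_one y d).symm⟩
      mul_mem' := by
        rintro _ _ ⟨u, hu, rfl⟩ ⟨v, hv, rfl⟩
        exact ⟨fun i => u i * v i, fun i => Subgroup.mul_mem _ (hu i) (hv i),
          (hc_cp_mul h y u v hv d).symm⟩
      inv_mem' := by
        rintro _ ⟨u, hu, rfl⟩
        refine ⟨fun i => (u i)⁻¹, fun i => Subgroup.inv_mem _ (hu i), ?_⟩
        have h1 := hc_cp_mul h y (fun i => (u i)⁻¹) u hu d
        have h2 : (fun i => (u i)⁻¹ * u i) = fun _ => (1 : G) := by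
          funext i; simp
        rw [h2, hc_cp_one] at h1
        exact (eq_inv_of_mul_eq_one_left h1.symm).symm }
  have hS : ∀ z, z ∈ S ↔ ∃ u : ℕ → G, (∀ i, u i ∈ itc N c) ∧ z = cp d y u := fun z => Iff.rfl
  have key : ∀ v ∈ itc N c, ∀ g : G, ⁅v, g⁆ ∈ S := by
    intro v hv g
    have hcen : ∀ a : G, ∀ b : G, ⁅v, a⁆ * b = b * ⁅v, a⁆ := by
      intro a b
      apply hc_central h
      rw [itc_succ]
      exact Subgroup.commutator_mem_commutator hv (Subgroup.mem_top a)
    have hmul : ∀ a b : G, ⁅v, a * b⁆ = ⁅v, a⁆ * ⁅v, b⁆ := by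
      intro a b
      have h1 : ⁅v, a * b⁆ = ⁅v, a⁆ * (a * ⁅v, b⁆ * a⁻¹) := by
        simp only [commutatorElement_def]; group
      rw [h1, ← hcen b a]; group
    let T : Subgroup G :=
      { carrier := {g | ⁅v, g⁆ ∈ S}
        one_mem' := by
          change ⁅v, (1 : G)⁆ ∈ S
          rw [commutatorElement_one_right]; exact S.one_mem
        mul_mem' := by
          intro a b ha hb
          change ⁅v, a * b⁆ ∈ S
          rw [hmul]; exact S.mul_mem ha hb
        inv_mem' := by
          intro a ha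
          change ⁅v, a⁻¹⁆ ∈ S
          have h1 := hmul a⁻¹ a
          rw [inv_mul_cancel, commutatorElement_one_right] at h1
          rw [eq_inv_of_mul_eq_one_left h1.symm]
          exact S.inv_mem ha }
    have hT : T = ⊤ := by
      rw [eq_top_iff, ← hy, Subgroup.closure_le]
      rintro _ ⟨i, hi, rfl⟩
      change ⁅v, y i⁆ ∈ S
      rw [hS]
      refine ⟨fun j => if j = i then v⁻¹ else 1, ?_, ?_⟩
      · intro j
        dsimp only
        split_ifs
        · exact Subgroup.inv_mem _ hv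
        · exact Subgroup.one_mem _
      · rw [hc_single y v⁻¹ i d hi]
        have h1 : ⁅y i, v⁻¹⁆ = v⁻¹ * ⁅v, y i⁆ * v := by
          simp only [commutatorElement_def]; group
        rw [h1, mul_assoc, hcen (y i) v]; group
    have : g ∈ T := by rw [hT]; exact Subgroup.mem_top g
    exact this
  intro z hz
  have hle : itc N (c + 1) ≤ S := by
    rw [itc_succ, Subgroup.commutator_le]
    intro v hv g _
    exact key v hv g
  exact (hS z).1 (hle hz)

end nb

theorem itc_map {G H : Type} [Group G] [Group H] (φ : G →* H) (hφ : Function.Surjective φ)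
    (N : Subgroup G) (j : ℕ) : (itc N j).map φ = itc (N.map φ) j := by
  induction j with
  | zero => rfl
  | succ j ih =>
    rw [itc_succ, itc_succ, Subgroup.map_commutator, ih, Subgroup.map_top_of_surjective _ hφ]

theorem hc_main : ∀ (n : ℕ) (G : Type) [Group G] (N : Subgroup G), N.Normal →
    itc N (n + 1) = ⊥ → ∀ (d : ℕ) (y : ℕ → G),
  Subgroup.closure {g | ∃ i < d, g = y i} = ⊤ →
    ∀ g ∈ itc N 1, ∃ x : ℕ → G, (∀ i, x i ∈ N) ∧ cp d y x = g := by
  intro n
  induction n with
  | zero =>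
    intro G _ N hN h d y _ g hg
    rw [h, Subgroup.mem_bot] at hg
    exact ⟨fun _ => 1, fun _ => N.one_mem, by rw [hc_cp_one, hg]⟩
  | succ n ih =>
    intro G _ N hN h d y hy g hg
    have hLn : (itc N (n + 1)).Normal := itc_normal N hN (n + 1)
    have hsurj : Function.Surjective (QuotientGroup.mk' (itc N (n + 1))) :=
      QuotientGroup.mk'_surjective _
    have h1 := ih (G ⧸ itc N (n + 1)) (N.map (QuotientGroup.mk' (itc N (n + 1))))
      (hN.map _ hsurj) (by
        rw [← itc_map _ hsurj, Subgroup.map_eq_bot_iff, QuotientGroup.ker_mk']) d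
      (fun i => QuotientGroup.mk' (itc N (n + 1)) (y i)) (by
        have h2 := congrArg (Subgroup.map (QuotientGroup.mk' (itc N (n + 1)))) hy
        rw [MonoidHom.map_closure, Subgroup.map_top_of_surjective _ hsurj] at h2
        rw [← h2]
        congr 1
        ext q
        constructor
        · rintro ⟨i, hi, rfl⟩
          exact ⟨y i, ⟨i, hi, rfl⟩, rfl⟩
        · rintro ⟨_, ⟨i, hi, rfl⟩, rfl⟩
          exact ⟨i, hi, rfl⟩)
      (QuotientGroup.mk' (itc N (n + 1)) g) (by
        rw [← itc_map _ hsurj]; exact Subgroup.mem_map_of_mem _ hg)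
    obtain ⟨x', hx'N, hx'⟩ := h1
    choose x hxN hx using hx'N
    have h3 : QuotientGroup.mk' (itc N (n + 1)) (cp d y x) =
        QuotientGroup.mk' (itc N (n + 1)) g := by
      rw [cp_map, ← hx']
      exact cp_congr (fun _ _ => rfl) (fun i _ => hx i)
    have h4 : (cp d y x)⁻¹ * g ∈ itc N (n + 1) := QuotientGroup.eq.1 h3
    obtain ⟨u, hu, hu'⟩ := hc_span h d y hy _ h4
    refine ⟨fun i => x i * u i, fun i => N.mul_mem (hxN i)
      (itc_anti N hN (Nat.zero_le n) (hu i)), ?_⟩
    rw [hc_cp_mul h y x u hu, ← hu']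
    group

theorem itc_le_ucs {G : Type} [Group G] (N : Subgroup G) : ∀ (k j : ℕ),
    N ≤ Subgroup.upperCentralSeries G (k + j) → itc N j ≤ Subgroup.upperCentralSeries G k := by
  intro k j
  induction j generalizing k with
  | zero => intro h; exact h
  | succ j ih =>
    intro h
    have h1 := ih (k + 1) (by rw [show k + 1 + j = k + (j + 1) by omega]; exact h)
    rw [itc_succ]
    exact (Subgroup.commutator_mono h1 le_rfl).trans
      (Subgroup.commutator_upperCentralSeries_top_le G k)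

theorem pf_HC : T_HC := by
  intro G _ N hN k hk s m n hm hS g hg
  have hbot : itc N (k + 1) = ⊥ := by
    have h1 : itc N k ≤ ⊥ := by
      have := itc_le_ucs N 0 k (by rw [Nat.zero_add]; exact hk)
      rwa [Subgroup.upperCentralSeries_zero] at this
    exact le_bot_iff.1 ((itc_anti N hN (Nat.le_succ k)).trans h1)
  obtain ⟨x, hxN, hx⟩ := hc_main k G N hN hbot s n hS g hg
  let c : ℕ → G := fun i => if i % 2 = 1 ∧ i / 2 < s then x (i / 2) else 1
  have hcN : ∀ i, c i ∈ N := by
    intro i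
    show (if i % 2 = 1 ∧ i / 2 < s then x (i / 2) else 1) ∈ N
    split_ifs
    · exact hxN _
    · exact N.one_mem
  have e0 : ∀ k : ℕ, cj (pat s n) c (2 * k) = n (k % s) := by
    intro k
    have h1 : (2 * k) % 2 = 0 := by omega
    have h2 : (2 * k) / 2 = k := by omega
    have h3 : ¬ ((2 * k) % 2 = 1 ∧ 2 * k / 2 < s) := by omega
    change c (2 * k) * pat s n (2 * k) * (c (2 * k))⁻¹ = _
    have h4 : c (2 * k) = 1 := if_neg h3
    have h5 : pat s n (2 * k) = n (2 * k / 2 % s) := if_pos h1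
    rw [h4, h5, h2]
    simp
  have e1 : ∀ k : ℕ, cj (pat s n) c (2 * k + 1) =
      c (2 * k + 1) * (n (k % s))⁻¹ * (c (2 * k + 1))⁻¹ := by
    intro k
    have h1 : ¬ (2 * k + 1) % 2 = 0 := by omega
    have h2 : (2 * k + 1) / 2 = k := by omega
    change c (2 * k + 1) * pat s n (2 * k + 1) * (c (2 * k + 1))⁻¹ = _
    have h5 : pat s n (2 * k + 1) = (n ((2 * k + 1) / 2 % s))⁻¹ := if_neg h1
    rw [h5, h2]
  have c1 : ∀ k : ℕ, k < s → c (2 * k + 1) = x k := by
    intro k hk
    have h2 : (2 * k + 1) / 2 = k := by omega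
    have h3 : (2 * k + 1) % 2 = 1 ∧ (2 * k + 1) / 2 < s := by omega
    have h4 : c (2 * k + 1) = x ((2 * k + 1) / 2) := if_pos h3
    rw [h4, h2]
  have c2 : ∀ k : ℕ, s ≤ k → c (2 * k + 1) = 1 := by
    intro k hk
    have h3 : ¬ ((2 * k + 1) % 2 = 1 ∧ (2 * k + 1) / 2 < s) := by omega
    exact if_neg h3
  have step : ∀ k : ℕ, Px (2 * (k + 1)) (cj (pat s n) c) = Px (2 * k) (cj (pat s n) c) *
      (n (k % s) * (c (2 * k + 1) * (n (k % s))⁻¹ * (c (2 * k + 1))⁻¹)) := by
    intro k
    rw [show 2 * (k + 1) = 2 * k + 1 + 1 by ring, Px_succ, Px_succ, e0, e1, mul_assoc]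
  have claimA : ∀ k : ℕ, k ≤ s → Px (2 * k) (cj (pat s n) c) = cp k n x := by
    intro k
    induction k with
    | zero => intro _; simp
    | succ k ih =>
      intro hk
      rw [step, ih (by omega), cp_succ, c1 k (by omega), Nat.mod_eq_of_lt (by omega),
        commutatorElement_def]
      simp only [mul_assoc]
  have claimB : ∀ k : ℕ, Px (2 * (s + k)) (cj (pat s n) c) = cp s n x := by
    intro k
    induction k with
    | zero => exact claimA s le_rfl
    | succ k ih =>
      rw [← add_assoc, step, ih, c2 (s + k) (by omega)]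
      simp
  have hN' : 2 * s * m = 2 * (s + s * (m - 1)) := by
    obtain ⟨m', rfl⟩ : ∃ m', m = m' + 1 := ⟨m - 1, by omega⟩
    rw [Nat.add_sub_cancel]
    ring
  refine ⟨c, hcN, ?_, ?_⟩
  · rw [hN', claimB, hx]
  · rw [eq_top_iff, ← hS]
    apply Subgroup.closure_mono
    rintro _ ⟨i, hi, rfl⟩
    refine ⟨2 * i, ?_, ?_⟩
    · rw [hN']
      have : i < s + s * (m - 1) := lt_of_lt_of_le hi (Nat.le_add_right _ _)
      omega
    · rw [e0, Nat.mod_eq_of_lt hi]

end Pool.Agent.H26.GWD
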