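import Pool.Agent.H18.GW.Ext

/-! MP_0b603e_al, gwd_modules, row KD: the subgroup `K` of the free group. -/

set_option autoImplicit false

open scoped commutatorElement

namespace Pool.Agent.H26.GWD

open Pool.Agent.H11.EL Pool.Agent.H11.KT Pool.Agent.H18.GW

theorem Pw_normal (n : ℕ) (G : Type) [Group G] : (Pw n G).Normal := by
  refine ⟨fun x hx g => ?_⟩
  have h1 : MulAut.conj g x ∈ (Pw n G).map (MulAut.conj g).toMonoidHom := ⟨x, hx, rfl⟩
  have h2 : (Pw n G).map (MulAut.conj g).toMonoidHom ≤ Pw n G := by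
    unfold Pw
    rw [MonoidHom.map_closure, Subgroup.closure_le]
    rintro _ ⟨_, ⟨y, rfl⟩, rfl⟩
    refine Subgroup.subset_closure ⟨MulAut.conj g y, ?_⟩
    simp
  exact h2 h1

theorem fg_map {G H : Type} [Group G] [Group H] {A : Subgroup G} (h : A.FG) (f : G →* H) :
    (A.map f).FG := by
  classical
  obtain ⟨S, hS⟩ := h
  refine ⟨S.image f, ?_⟩
  rw [Finset.coe_image, ← MonoidHom.map_closure, hS]

theorem pf_KD (hFN : T_FN) : T_KD := by
  intro r w c e he hgood d
  obtain ⟨N, hN, hNi, hNe, hNA⟩ := hgood (FreeGroup (Fin d) ⧸ Vb w (FreeGroup (Fin d)))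
    inferInstance (Law_quot w _)
  obtain ⟨π, hπ⟩ : ∃ π, π = QuotientGroup.mk' (Vb w (FreeGroup (Fin d))) := ⟨_, rfl⟩
  have hπs : Function.Surjective π := by rw [hπ]; exact QuotientGroup.mk'_surjective _
  obtain ⟨K1, hK1⟩ : ∃ K1 : Subgroup (FreeGroup (Fin d)), K1 = N.comap π := ⟨_, rfl⟩
  obtain ⟨P, hP⟩ : ∃ P : Subgroup (FreeGroup (Fin d)), P = (N.lowerCentralSeries c).comap π :=
    ⟨_, rfl⟩
  have hK1n : K1.Normal := by rw [hK1]; exact hN.comap π
  have hPn : P.Normal := by rw [hP]; exact (lcs_normal hN c).comap π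
  have hPwn : (Pw e (FreeGroup (Fin d))).Normal := Pw_normal e _
  obtain ⟨K, hK⟩ : ∃ K : Subgroup (FreeGroup (Fin d)), K = Pw e (FreeGroup (Fin d)) ⊔ P :=
    ⟨_, rfl⟩
  have hKn : K.Normal := by rw [hK]; exact Subgroup.sup_normal _ _
  have hK1i : K1.FiniteIndex := by
    refine ⟨?_⟩
    rw [hK1, Subgroup.index_comap_of_surjective _ hπs]
    exact hNi.index_ne_zero
  have hK1fg : Group.FG K1 := Subgroup.fg_of_index_ne_zero K1
  -- the quotient
  have hKi : K.FiniteIndex := by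
    obtain ⟨B, hB⟩ : ∃ B : Subgroup (FreeGroup (Fin d) ⧸ K), B = K1.map (QuotientGroup.mk' K) :=
      ⟨_, rfl⟩
    have hBfg : Group.FG B := by
      rw [Group.fg_iff_subgroup_fg, hB]
      exact fg_map ((Group.fg_iff_subgroup_fg K1).1 hK1fg) _
    have hBl : B.lowerCentralSeries c = ⊥ := by
      rw [hB, ← Subgroup.map_lowerCentralSeries, Subgroup.map_eq_bot_iff, QuotientGroup.ker_mk']
      have h1 : K1.lowerCentralSeries c ≤ P := by
        rw [hP, ← Subgroup.map_le_iff_le_comap, Subgroup.map_lowerCentralSeries]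
        refine lcs_mono ?_ c
        rw [hK1]
        exact Subgroup.map_comap_le _ _
      rw [hK]
      exact h1.trans le_sup_right
    have hBn : Group.IsNilpotent B := by
      rw [Subgroup.nilpotent_iff_lowerCentralSeries]
      refine ⟨c, ?_⟩
      rw [← Subgroup.map_eq_bot_iff_of_injective _ B.subtype_injective,
        Subgroup.map_lowerCentralSeries, ← MonoidHom.range_eq_map, Subgroup.range_subtype]
      exact hBl
    have hBe : ∀ x : B, x ^ e = 1 := by
      rintro ⟨x, hx⟩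
      rw [hB] at hx
      obtain ⟨y, -, rfl⟩ := hx
      apply Subtype.ext
      rw [Subgroup.coe_pow, Subgroup.coe_one]
      rw [← map_pow]
      refine (QuotientGroup.eq_one_iff _).2 ?_
      rw [hK]
      exact Subgroup.mem_sup_left (Subgroup.subset_closure ⟨y, rfl⟩)
    have hBf : Finite B := hFN B hBfg hBn e he hBe
    have hBi : B.index ≠ 0 := by
      intro h0
      have h1 := Subgroup.index_map_dvd K1 (QuotientGroup.mk'_surjective K)
      rw [← hB, h0] at h1
      exact hK1i.index_ne_zero (Nat.eq_zero_of_zero_dvd h1)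
    refine ⟨?_⟩
    have h2 : Nat.card (FreeGroup (Fin d) ⧸ K) = Nat.card B * B.index :=
      (Subgroup.card_mul_index B).symm
    rw [Subgroup.index, h2]
    exact Nat.mul_ne_zero (Nat.card_pos.ne') hBi
  refine ⟨K, hKn, hKi, ?_⟩
  have hKfg : Group.FG K := Subgroup.fg_of_index_ne_zero K
  obtain ⟨S, hS⟩ := (Group.fg_iff_subgroup_fg K).1 hKfg
  obtain ⟨κ, hκ⟩ : ∃ κ : Fin S.card → FreeGroup (Fin d), κ = fun i => (S.equivFin.symm i : FreeGroup (Fin d)) :=
    ⟨_, rfl⟩
  have hr : Set.range κ = (S : Set (FreeGroup (Fin d))) := by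
    ext x
    constructor
    · rintro ⟨i, rfl⟩
      rw [hκ]
      exact (S.equivFin.symm i).2
    · intro hx
      refine ⟨S.equivFin ⟨x, hx⟩, ?_⟩
      rw [hκ]
      simp
  have hκK : ∀ i, κ i ∈ K := by
    intro i
    rw [← hS, ← hr]
    exact Subgroup.subset_closure ⟨i, rfl⟩
  have hdec : ∀ i, ∃ y ∈ Pw e (FreeGroup (Fin d)), ∃ z ∈ P, y * z = κ i := by
    intro i
    have h1 := hκK i
    rw [hK, Subgroup.mem_sup_of_normal_right] at h1
    exact h1
  choose ε hε ρ hρ hερ using hdec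
  refine ⟨S.card, κ, ε, ρ, ?_, fun i => (hερ i).symm, hε, ?_⟩
  · rw [hr, hS]
  · intro i Q _ hQ f
    have hker : Vb w (FreeGroup (Fin d)) ≤ (FreeGroup.lift f).ker := by
      unfold Vb
      rw [Subgroup.closure_le]
      rintro _ ⟨g, rfl⟩
      show FreeGroup.lift f (FreeGroup.lift g w) = 1
      rw [lift_map]
      exact hQ _
    obtain ⟨ψ, hψ⟩ : ∃ ψ, ψ = QuotientGroup.lift (Vb w (FreeGroup (Fin d))) (FreeGroup.lift f)
        (fun x hx => hker hx) := ⟨_, rfl⟩
    have hψπ : ∀ x, ψ (π x) = FreeGroup.lift f x := by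
      intro x
      rw [hψ, hπ]
      rfl
    have hmem : π (ρ i) ∈ N.lowerCentralSeries c := by
      have h1 := hρ i
      rw [hP] at h1
      exact h1
    obtain ⟨A0, hA0, hA0p, hA0m⟩ := hNA _ hmem
    refine ⟨A0.map ψ, fg_map hA0 ψ, ?_, ?_⟩
    · rw [← Subgroup.map_commutator, hA0p]
    · rw [← hψπ]
      exact ⟨_, hA0m, rfl⟩

end Pool.Agent.H26.GWD
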