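import Pool.Agent.H18.GW.Ext

/-! MP_0b603e_al, gwd_modules, row KK: a subgroup of finite index inside all the normal subgroups
of small index. -/

set_option autoImplicit false

open scoped commutatorElement

namespace Pool.Agent.H26.GWD

open Pool.Agent.H11.EL Pool.Agent.H11.KT Pool.Agent.H18.GW

theorem pf_KK : T_KK := by
  intro d n
  obtain ⟨f, hf⟩ : ∃ f : (Σ i : Fin (n + 1), (Fin d → Equiv.Perm (Fin i))) →
      Subgroup (FreeGroup (Fin d)), ∀ p, f p = (FreeGroup.lift p.2).ker :=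
    ⟨fun p => (FreeGroup.lift p.2).ker, fun _ => rfl⟩
  refine ⟨⨅ p, f p, ?_, ?_, ?_⟩
  · exact Subgroup.normal_iInf_normal fun p => by rw [hf]; infer_instance
  · exact Subgroup.finiteIndex_iInf fun p => by rw [hf]; exact Subgroup.finiteIndex_ker _
  · intro L hL h0 hn
    have hfin : Finite (FreeGroup (Fin d) ⧸ L) := Nat.finite_of_card_ne_zero h0
    have e : (FreeGroup (Fin d) ⧸ L) ≃ Fin L.index := Finite.equivFin _
    obtain ⟨φ, hφ⟩ : ∃ φ : FreeGroup (Fin d) →* Equiv.Perm (Fin L.index),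
        ∀ x, φ x = e.permCongr (MulAction.toPermHom (FreeGroup (Fin d))
          (FreeGroup (Fin d) ⧸ L) x) :=
      ⟨e.permCongrHom.toMonoidHom.comp (MulAction.toPermHom (FreeGroup (Fin d))
        (FreeGroup (Fin d) ⧸ L)), fun x => rfl⟩
    intro x hx
    have hx1 : x ∈ f ⟨⟨L.index, by omega⟩, fun i => φ (FreeGroup.of i)⟩ :=
      (Subgroup.mem_iInf.1 hx) _
    rw [hf, MonoidHom.mem_ker] at hx1
    have hlift : FreeGroup.lift (fun i => φ (FreeGroup.of i)) = φ := by
      ext i : 1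
      simp
    have hx2 : φ x = 1 := by
      rw [← hlift]
      exact hx1
    rw [hφ] at hx2
    have hx3 : MulAction.toPermHom (FreeGroup (Fin d)) (FreeGroup (Fin d) ⧸ L) x = 1 := by
      apply e.permCongr.injective
      rw [hx2]
      ext j
      simp
    have hx4 : x • ((1 : FreeGroup (Fin d)) : FreeGroup (Fin d) ⧸ L) =
        ((1 : FreeGroup (Fin d)) : FreeGroup (Fin d) ⧸ L) := by
      have := congrArg (fun σ : Equiv.Perm (FreeGroup (Fin d) ⧸ L) =>
        σ ((1 : FreeGroup (Fin d)) : FreeGroup (Fin d) ⧸ L)) hx3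
      exact this
    have hx5 : ((x * 1 : FreeGroup (Fin d)) : FreeGroup (Fin d) ⧸ L) =
        ((1 : FreeGroup (Fin d)) : FreeGroup (Fin d) ⧸ L) := hx4
    rw [mul_one] at hx5
    have hx6 := QuotientGroup.eq.1 hx5
    rw [mul_one] at hx6
    exact (Subgroup.inv_mem_iff L).1 hx6

end Pool.Agent.H26.GWD
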