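import Pool.Agent.H18.GW.Targets2

/-! MP_0b603e_al, gwd_modules, row MW: good words have bounded width in finite soluble-by-bounded
groups. -/

set_option autoImplicit false

open scoped commutatorElement

namespace Pool.Agent.H26.GWD

open Pool.Agent.H11.EL Pool.Agent.H11.KT Pool.Agent.H18.GW

theorem mw_family {X : Type} (e : X) (s : Finset X) (d : ℕ) (hd : s.card ≤ d) :
    ∃ f : Fin d → X, (s : Set X) ⊆ Set.range f := by
  classical
  refine ⟨fun i => s.toList.getD i e, ?_⟩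
  intro x hx
  have hx1 : x ∈ s.toList := by simpa using hx
  obtain ⟨i, hi, hxi⟩ := List.mem_iff_getElem.1 hx1
  have hi1 : i < s.card := by simpa using hi
  refine ⟨⟨i, by omega⟩, ?_⟩
  change s.toList.getD i e = x
  rw [List.getD_eq_getElem _ _ hi, hxi]

theorem mw_gen {G : Type} [Group G] (s : Finset G) (d : ℕ) (hd : s.card ≤ d)
    (hs : Subgroup.closure (s : Set G) = ⊤) :
    ∃ f : Fin d → G, Subgroup.closure (Set.range f) = ⊤ := by
  obtain ⟨f, hf⟩ := mw_family 1 s d hd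
  refine ⟨f, ?_⟩
  rw [eq_top_iff, ← hs]
  exact Subgroup.closure_mono hf

theorem pf_MW (hZZ : T_ZZ) (hVN : T_VN) (hKK : T_KK) (hCI : T_CI) : T_MW := by
  rintro r w ⟨c, e, he, hg⟩ ρ d
  obtain ⟨i₀, M, hM⟩ := hZZ r w c e he hg (ρ * d)
  obtain ⟨K, hKn, hKi, hKL⟩ := hKK d (ρ * i₀).factorial
  have hLn : (K.lowerCentralSeries c).Normal := lcs_normal hKn c
  have hsurjR := QuotientGroup.mk'_surjective (K.lowerCentralSeries c)
  have hN1 : (K.map (QuotientGroup.mk' (K.lowerCentralSeries c))).Normal := hKn.map _ hsurjR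
  have hN2 : (K.map (QuotientGroup.mk' (K.lowerCentralSeries c))).FiniteIndex := by
    refine ⟨fun h0 => hKi.index_ne_zero ?_⟩
    have h1 := Subgroup.index_map_dvd K hsurjR
    rw [h0] at h1
    exact Nat.eq_zero_of_zero_dvd h1
  have hN3 : Group.IsNilpotent (K.map (QuotientGroup.mk' (K.lowerCentralSeries c))) := by
    rw [Subgroup.isNilpotent_iff_lowerCentralSeries]
    refine ⟨c, ?_⟩
    rw [← Subgroup.map_lowerCentralSeries, Subgroup.map_eq_bot_iff, QuotientGroup.ker_mk']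
  obtain ⟨m, hm⟩ := hVN (FreeGroup (Fin d) ⧸ K.lowerCentralSeries c) inferInstance _ hN1 hN2
    hN3 r w
  refine ⟨m + M, ?_⟩
  rintro G _ _ ⟨S, hSn, hSs, hSi⟩ ⟨s, hsd, hs⟩ g hgV
  -- generators of `G` and of `S`
  obtain ⟨t, ht⟩ := mw_gen s d hsd hs
  have hSfi : S.FiniteIndex := inferInstance
  obtain ⟨T, hTc, hT⟩ := Subgroup.exists_finset_card_le_mul S hs
  obtain ⟨u, hu⟩ := mw_gen T (ρ * d) (hTc.trans (Nat.mul_le_mul hSi hsd)) hT
  obtain ⟨H, hHi, hHM⟩ := hM S hSs u hu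
  obtain ⟨C, hCn, hCH, hCi⟩ := hCI G S H ρ i₀ hSi hHi
  have hsurj : Function.Surjective (FreeGroup.lift t) := by
    rw [← MonoidHom.range_eq_top, eq_top_iff, ← ht, Subgroup.closure_le]
    rintro _ ⟨i, rfl⟩
    exact ⟨FreeGroup.of i, by simp⟩
  have hKC : K ≤ C.comap (FreeGroup.lift t) := by
    refine hKL _ (hCn.comap _) ?_ ?_
    · rw [Subgroup.index_comap_of_surjective _ hsurj]
      exact Subgroup.index_ne_zero_of_finite
    · rw [Subgroup.index_comap_of_surjective _ hsurj]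
      exact hCi
  rw [← Vb_map w (FreeGroup.lift t) hsurj] at hgV
  obtain ⟨v, hv, rfl⟩ := hgV
  have h1 : QuotientGroup.mk' (K.lowerCentralSeries c) v ∈
      Vb w (FreeGroup (Fin d) ⧸ K.lowerCentralSeries c) := by
    rw [← Vb_map w _ hsurjR]
    exact ⟨v, hv, rfl⟩
  obtain ⟨v', hv1, hv2⟩ := pw_lift _ hsurjR (hm _ h1)
  have h3 : v'⁻¹ * v ∈ K.lowerCentralSeries c := QuotientGroup.eq.1 hv1
  have h4 : FreeGroup.lift t (v'⁻¹ * v) ∈ (H.lowerCentralSeries c).map S.subtype := by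
    rw [Subgroup.map_lowerCentralSeries]
    have h5 : FreeGroup.lift t (v'⁻¹ * v) ∈ (K.lowerCentralSeries c).map (FreeGroup.lift t) :=
      ⟨_, h3, rfl⟩
    rw [Subgroup.map_lowerCentralSeries] at h5
    exact lcs_mono ((Subgroup.map_le_iff_le_comap.2 hKC).trans hCH) c h5
  obtain ⟨z, hz, hz1⟩ := h4
  have h6 : PW w M (FreeGroup.lift t (v'⁻¹ * v)) := by
    rw [← hz1]
    exact (hHM z hz).map _
  have h7 := (hv2.map (FreeGroup.lift t)).mul h6
  rwa [← map_mul, mul_inv_cancel_left] at h7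

end Pool.Agent.H26.GWD
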