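import Pool.Agent.H26.GWD.KD

/-! MP_0b603e_al, gwd_modules, row RD: finitely generated restrained groups: the derived group. -/

set_option autoImplicit false

open scoped commutatorElement

namespace Pool.Agent.H26.GWD

open Pool.Agent.H11.EL Pool.Agent.H11.KT Pool.Agent.H18.GW

theorem normal_of_comm {H : Type} [Group H] {Y : Subgroup H} (h : commutator H ≤ Y) :
    Y.Normal := by
  refine ⟨fun y hy g => ?_⟩
  have h1 : ⁅g, y⁆ ∈ Y := h (Subgroup.commutator_mem_commutator (Subgroup.mem_top _)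
    (Subgroup.mem_top _))
  have h2 := Y.mul_mem h1 hy
  rwa [commutatorElement_def, inv_mul_cancel_right] at h2

theorem Rst_sub {m : ℕ} {H : Type} [Group H] (h : Rst m H) (Y : Subgroup H) : Rst m Y := by
  intro a b
  have h1 := h a b
  have h2 : {g : H | ∃ i : ℕ, 1 ≤ i ∧ i ≤ m ∧ g = (b : H) ^ i * a * ((b : H) ^ i)⁻¹} =
      Y.subtype '' {g : Y | ∃ i : ℕ, 1 ≤ i ∧ i ≤ m ∧ g = b ^ i * a * (b ^ i)⁻¹} := by
    ext g
    constructor
    · rintro ⟨i, h1, h2, rfl⟩
      exact ⟨b ^ i * a * (b ^ i)⁻¹, ⟨i, h1, h2, rfl⟩, by simp⟩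
    · rintro ⟨_, ⟨i, h1, h2, rfl⟩, rfl⟩
      exact ⟨i, h1, h2, by simp⟩
  rw [h2, ← MonoidHom.map_closure] at h1
  obtain ⟨z, hz, hz1⟩ := h1
  have h3 : z = a := Subtype.ext hz1
  rw [h3] at hz
  exact hz

theorem rd_main (hRG : T_RG) (m : ℕ) : ∀ (n : ℕ) (H : Type) [Group H], Group.FG H → Rst m H →
    ∀ C : Subgroup H, commutator H ≤ C → ∀ f : Fin n → H,
      Subgroup.closure (Set.range f) ⊔ C = ⊤ → C.FG := by
  intro n
  induction n with
  | zero =>
    intro H _ hfg _ C _ f hf
    have h1 : Set.range f = ∅ := Set.range_eq_empty f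
    rw [h1, Subgroup.closure_empty, bot_sup_eq] at hf
    rw [hf]
    exact Group.fg_def.1 hfg
  | succ n ih =>
    intro H _ hfg hR C hC f hf
    obtain ⟨Y, hY⟩ : ∃ Y : Subgroup H, Y = Subgroup.closure (Set.range fun i : Fin n =>
      f i.castSucc) ⊔ C := ⟨_, rfl⟩
    have hCY : C ≤ Y := by rw [hY]; exact le_sup_right
    have hYn : Y.Normal := normal_of_comm (hC.trans hCY)
    have hfY : ∀ i : Fin n, f i.castSucc ∈ Y := by
      intro i
      rw [hY]
      exact Subgroup.mem_sup_left (Subgroup.subset_closure ⟨i, rfl⟩)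
    have hcyc : IsCyclic (H ⧸ Y) := by
      refine ⟨((f (Fin.last n) : H) : H ⧸ Y), ?_⟩
      have h1 : (⊤ : Subgroup H) ≤ (Subgroup.zpowers ((f (Fin.last n) : H) : H ⧸ Y)).comap
          (QuotientGroup.mk' Y) := by
        rw [← hf, sup_le_iff, Subgroup.closure_le]
        constructor
        · rintro _ ⟨i, rfl⟩
          show ((f i : H) : H ⧸ Y) ∈ Subgroup.zpowers ((f (Fin.last n) : H) : H ⧸ Y)
          refine Fin.lastCases ?_ (fun j => ?_) i
          · exact Subgroup.mem_zpowers _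
          · rw [(QuotientGroup.eq_one_iff _).2 (hfY j)]
            exact Subgroup.one_mem _
        · intro c hc
          show ((c : H) : H ⧸ Y) ∈ Subgroup.zpowers ((f (Fin.last n) : H) : H ⧸ Y)
          rw [(QuotientGroup.eq_one_iff _).2 (hCY hc)]
          exact Subgroup.one_mem _
      intro q
      obtain ⟨h, rfl⟩ := QuotientGroup.mk_surjective q
      exact h1 (Subgroup.mem_top h)
    have hYfg : Y.FG := hRG m H hfg hR Y hcyc
    have hYfg' : Group.FG Y := (Group.fg_iff_subgroup_fg Y).2 hYfg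
    obtain ⟨f', hf'⟩ : ∃ f' : Fin n → Y, ∀ i, (f' i : H) = f i.castSucc :=
      ⟨fun i => ⟨f i.castSucc, hfY i⟩, fun _ => rfl⟩
    have h1 : (C.subgroupOf Y).FG := by
      refine ih Y hYfg' (Rst_sub hR Y) (C.subgroupOf Y) ?_ f' ?_
      · rw [commutator_def, Subgroup.commutator_le]
        intro a _ b _
        rw [Subgroup.mem_subgroupOf]
        exact hC (Subgroup.commutator_mem_commutator (Subgroup.mem_top _) (Subgroup.mem_top _))
      · apply Subgroup.map_injective Y.subtype_injective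
        rw [Subgroup.map_sup, MonoidHom.map_closure, Subgroup.map_subgroupOf_eq_of_le hCY,
          ← MonoidHom.range_eq_map, Subgroup.range_subtype]
        refine Eq.trans ?_ hY.symm
        congr 2
        ext x
        constructor
        · rintro ⟨_, ⟨i, rfl⟩, rfl⟩
          exact ⟨i, (hf' i).symm⟩
        · rintro ⟨i, rfl⟩
          exact ⟨_, ⟨i, rfl⟩, hf' i⟩
    have h2 := fg_map h1 Y.subtype
    rwa [Subgroup.map_subgroupOf_eq_of_le hCY] at h2

theorem pf_RD (hRG : T_RG) : T_RD := by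
  intro m H _ hfg hR
  obtain ⟨S, hS⟩ := Group.fg_def.1 hfg
  refine rd_main hRG m S.card H hfg hR (commutator H) le_rfl
    (fun i => (S.equivFin.symm i : H)) ?_
  have h1 : Set.range (fun i => (S.equivFin.symm i : H)) = (S : Set H) := by
    ext x
    constructor
    · rintro ⟨i, rfl⟩
      exact (S.equivFin.symm i).2
    · intro hx
      refine ⟨S.equivFin ⟨x, hx⟩, ?_⟩
      simp
  rw [h1, hS, top_sup_eq]

end Pool.Agent.H26.GWD
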