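import Pool.Agent.H18.GW.Ext

/-! MP_0b603e_al, gwd_modules, row RG: finitely generated restrained groups: cyclic quotients. -/

set_option autoImplicit false

open scoped commutatorElement

namespace Pool.Agent.H26.GWD

open Pool.Agent.H11.EL Pool.Agent.H11.KT Pool.Agent.H18.GW

theorem conj_closure {G : Type} [Group G] {T : Set G} {Y : Subgroup G} (g : G)
    (h : ∀ t ∈ T, g * t * g⁻¹ ∈ Y) : ∀ z ∈ Subgroup.closure T, g * z * g⁻¹ ∈ Y := by
  have h1 : Subgroup.closure T ≤ Y.comap (MulAut.conj g).toMonoidHom := by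
    rw [Subgroup.closure_le]
    intro t ht
    exact h t ht
  intro z hz
  exact h1 hz

theorem pf_RG : T_RG := by
  classical
  intro m H _ hfg hR Y _ hcyc
  obtain ⟨xb, hxb⟩ := hcyc.exists_generator
  obtain ⟨x, rfl⟩ := QuotientGroup.mk_surjective xb
  have hdec : ∀ h : H, ∃ (a : ℤ) (y : H), y ∈ Y ∧ h = x ^ a * y := by
    intro h
    obtain ⟨a, ha⟩ := Subgroup.mem_zpowers_iff.1 (hxb (h : H ⧸ Y))
    refine ⟨a, (x ^ a)⁻¹ * h, ?_, by group⟩
    rw [← QuotientGroup.eq, ← ha]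
    rfl
  choose a y hy hay using hdec
  obtain ⟨S, hS⟩ := Group.fg_def.1 hfg
  -- the subgroup
  obtain ⟨T, hT⟩ : ∃ T : Set H, T = {g | ∃ i : ℕ, i < m ∧ ∃ h ∈ S, g = x ^ i * y h * (x ^ i)⁻¹} :=
    ⟨_, rfl⟩
  have hTf : T.Finite := by
    have h1 : T ⊆ (fun p : ℕ × H => x ^ p.1 * y p.2 * (x ^ p.1)⁻¹) ''
        ((Finset.range m ×ˢ S : Finset (ℕ × H)) : Set (ℕ × H)) := by
      intro g hg
      rw [hT] at hg
      obtain ⟨i, hi, h, hh, rfl⟩ := hg
      exact ⟨(i, h), by simp [hi, hh], rfl⟩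
    exact ((Finset.finite_toSet _).image _).subset h1
  obtain ⟨Y1, hY1⟩ : ∃ Y1 : Subgroup H, Y1 = Subgroup.closure T := ⟨_, rfl⟩
  have hgen : ∀ i < m, ∀ h ∈ S, x ^ i * y h * (x ^ i)⁻¹ ∈ Y1 := by
    intro i hi h hh
    rw [hY1]
    exact Subgroup.subset_closure (by rw [hT]; exact ⟨i, hi, h, hh, rfl⟩)
  -- the two boundary cases
  have hup : ∀ h ∈ S, x ^ m * y h * (x ^ m)⁻¹ ∈ Y1 := by
    intro h hh
    refine conj_closure (x ^ m) ?_ _ (hR (y h) x⁻¹)
    rintro _ ⟨i, hi1, hi2, rfl⟩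
    have h1 := hgen (m - i) (by omega) h hh
    have h2 : x ^ m = x ^ (m - i) * x ^ i := by rw [← pow_add]; congr 1; omega
    have h3 : x ^ m * ((x⁻¹) ^ i * y h * ((x⁻¹) ^ i)⁻¹) * (x ^ m)⁻¹ =
        x ^ (m - i) * y h * (x ^ (m - i))⁻¹ := by
      rw [h2, inv_pow]
      group
    rw [h3]
    exact h1
  have hdown : ∀ h ∈ S, x⁻¹ * y h * x⁻¹⁻¹ ∈ Y1 := by
    intro h hh
    refine conj_closure x⁻¹ ?_ _ (hR (y h) x)
    rintro _ ⟨i, hi1, hi2, rfl⟩
    have h1 := hgen (i - 1) (by omega) h hh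
    have h2 : x ^ i = x * x ^ (i - 1) := by rw [← pow_succ']; congr 1; omega
    have h3 : x⁻¹ * (x ^ i * y h * (x ^ i)⁻¹) * x⁻¹⁻¹ =
        x ^ (i - 1) * y h * (x ^ (i - 1))⁻¹ := by
      rw [h2]
      group
    rw [h3]
    exact h1
  have hin : ∀ h ∈ S, y h ∈ Y1 := by
    intro h hh
    rcases Nat.eq_zero_or_pos m with h0 | h0
    · have h1 := hR (y h) x
      have h2 : {g | ∃ i : ℕ, 1 ≤ i ∧ i ≤ m ∧ g = x ^ i * y h * (x ^ i)⁻¹} = (∅ : Set H) := by
        ext g
        simp only [Set.mem_setOf_eq, Set.mem_empty_iff_false, iff_false]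
        rintro ⟨i, hi1, hi2, -⟩
        omega
      rw [h2, Subgroup.closure_empty, Subgroup.mem_bot] at h1
      rw [h1]
      exact Y1.one_mem
    · have := hgen 0 h0 h hh
      simpa using this
  have hx1 : ∀ z ∈ Y1, x * z * x⁻¹ ∈ Y1 := by
    intro z hz
    rw [hY1] at hz
    refine conj_closure x ?_ z hz
    intro t ht
    rw [hT] at ht
    obtain ⟨i, hi, h, hh, rfl⟩ := ht
    have h3 : x * (x ^ i * y h * (x ^ i)⁻¹) * x⁻¹ = x ^ (i + 1) * y h * (x ^ (i + 1))⁻¹ := by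
      rw [pow_succ']
      group
    rw [h3]
    rcases Nat.lt_or_ge (i + 1) m with h4 | h4
    · exact hgen _ h4 h hh
    · have h5 : i + 1 = m := by omega
      rw [h5]
      exact hup h hh
  have hx2 : ∀ z ∈ Y1, x⁻¹ * z * x⁻¹⁻¹ ∈ Y1 := by
    intro z hz
    rw [hY1] at hz
    refine conj_closure x⁻¹ ?_ z hz
    intro t ht
    rw [hT] at ht
    obtain ⟨i, hi, h, hh, rfl⟩ := ht
    rcases Nat.eq_zero_or_pos i with h4 | h4
    · rw [h4]
      have := hdown h hh
      simpa using this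
    · have h2 : x ^ i = x * x ^ (i - 1) := by rw [← pow_succ']; congr 1; omega
      have h3 : x⁻¹ * (x ^ i * y h * (x ^ i)⁻¹) * x⁻¹⁻¹ =
          x ^ (i - 1) * y h * (x ^ (i - 1))⁻¹ := by
        rw [h2]
        group
      rw [h3]
      exact hgen _ (by omega) h hh
  have hxn : x ∈ Subgroup.normalizer (Y1 : Set H) := by
    rw [Subgroup.mem_normalizer_iff]
    intro z
    constructor
    · exact hx1 z
    · intro hz
      have := hx2 _ hz
      have h3 : x⁻¹ * (x * z * x⁻¹) * x⁻¹⁻¹ = z := by group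
      rwa [h3] at this
  have hnorm : Y1.Normal := by
    rw [← Subgroup.normalizer_eq_top_iff, eq_top_iff, ← hS, Subgroup.closure_le]
    intro h hh
    show h ∈ Subgroup.normalizer (Y1 : Set H)
    rw [hay h]
    exact Subgroup.mul_mem _ (Subgroup.zpow_mem _ hxn _) (Subgroup.le_normalizer (hin h hh))
  have hY1Y : Y1 ≤ Y := by
    rw [hY1, Subgroup.closure_le]
    intro t ht
    rw [hT] at ht
    obtain ⟨i, hi, h, hh, rfl⟩ := ht
    exact Subgroup.Normal.conj_mem inferInstance _ (hy h) _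
  -- all elements
  have hall : ∀ h : H, ∃ (n : ℤ) (z : H), z ∈ Y1 ∧ x ^ n * z = h := by
    intro h
    have h1 : h ∈ Subgroup.zpowers x ⊔ Y1 := by
      have h2 : (⊤ : Subgroup H) ≤ Subgroup.zpowers x ⊔ Y1 := by
        rw [← hS, Subgroup.closure_le]
        intro g hg
        show g ∈ Subgroup.zpowers x ⊔ Y1
        rw [hay g]
        exact Subgroup.mul_mem_sup (Subgroup.zpow_mem_zpowers x _) (hin g hg)
      exact h2 (Subgroup.mem_top h)
    rw [Subgroup.mem_sup_of_normal_right] at h1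
    obtain ⟨p, hp, z, hz, hpz⟩ := h1
    obtain ⟨n, rfl⟩ := Subgroup.mem_zpowers_iff.1 hp
    exact ⟨n, z, hz, hpz⟩
  obtain ⟨Z, hZ⟩ : ∃ Z : AddSubgroup ℤ, ∀ n, n ∈ Z ↔ x ^ n ∈ Y :=
    ⟨{ carrier := {n | x ^ n ∈ Y}
       zero_mem' := by
         show x ^ (0 : ℤ) ∈ Y
         rw [zpow_zero]
         exact Y.one_mem
       add_mem' := by
         intro p q hp hq
         show x ^ (p + q) ∈ Y
         rw [zpow_add]
         exact Y.mul_mem hp hq
       neg_mem' := by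
         intro p hp
         show x ^ (-p) ∈ Y
         rw [zpow_neg]
         exact Y.inv_mem hp }, fun n => Iff.rfl⟩
  obtain ⟨k, hk⟩ := Int.subgroup_cyclic Z
  have hkY : x ^ k ∈ Y := by
    rw [← hZ, hk]
    exact AddSubgroup.subset_closure rfl
  have hYeq : Y = Subgroup.closure (insert (x ^ k) T) := by
    apply le_antisymm
    · intro h hh
      obtain ⟨n, z, hz, rfl⟩ := hall h
      have h1 : x ^ n ∈ Y := by
        have h2 := Y.mul_mem hh (Y.inv_mem (hY1Y hz))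
        rwa [mul_inv_cancel_right] at h2
      rw [← hZ, hk, AddSubgroup.mem_closure_singleton] at h1
      obtain ⟨j, hj⟩ := h1
      have h3 : x ^ n = (x ^ k) ^ j := by
        rw [← zpow_mul, ← hj, smul_eq_mul, mul_comm]
      rw [h3]
      refine Subgroup.mul_mem _ (Subgroup.zpow_mem _ (Subgroup.subset_closure
        (Set.mem_insert _ _)) _) ?_
      rw [hY1] at hz
      exact Subgroup.closure_mono (Set.subset_insert _ _) hz
    · rw [Subgroup.closure_le]
      intro t ht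
      rcases Set.mem_insert_iff.1 ht with rfl | ht
      · exact hkY
      · exact hY1Y (by rw [hY1]; exact Subgroup.subset_closure ht)
  refine (Subgroup.fg_iff Y).2 ⟨insert (x ^ k) T, hYeq.symm, hTf.insert _⟩

end Pool.Agent.H26.GWD
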