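import Pool.Agent.H18.GW.Ext

/-! MP_0b603e_al, gwd_modules, row ZZ: a subgroup of bounded index with bounded `γ_{c+1}`. -/

set_option autoImplicit false

open scoped commutatorElement

namespace Pool.Agent.H26.GWD

open Pool.Agent.H11.EL Pool.Agent.H11.KT Pool.Agent.H18.GW

theorem BP_map {G H : Type} [Group G] [Group H] (φ : G →* H) {S : Set G} {k : ℕ} {g : G}
    (h : BP S k g) : BP (φ '' S) k (φ g) := by
  obtain ⟨L, h1, h2, rfl⟩ := h
  refine ⟨L.map φ, by simpa using h1, ?_, (map_list_prod φ L).symm⟩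
  intro x hx
  obtain ⟨y, hy, rfl⟩ := List.mem_map.1 hx
  rcases h2 y hy with h | h
  · exact Or.inl ⟨y, h, rfl⟩
  · exact Or.inr ⟨y⁻¹, h, map_inv φ y⟩

theorem range_lift_top {G : Type} [Group G] {d : ℕ} (s : Fin d → G)
    (hs : Subgroup.closure (Set.range s) = ⊤) : Function.Surjective (FreeGroup.lift s) := by
  rw [← MonoidHom.range_eq_top, eq_top_iff, ← hs, Subgroup.closure_le]
  rintro _ ⟨i, rfl⟩
  exact ⟨FreeGroup.of i, by simp⟩

theorem pf_ZZ (hGN : T_GN) (hKD : T_KD) (hHB : T_HB) (hCB : T_CB) (hGC : T_GC) : T_ZZ := by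
  classical
  intro r w c e he hg d
  obtain ⟨K, hKn, hKi, s, κ, ε, ρ, hκ, hdec, hε, hρ⟩ := hKD r w c e he hg d
  -- the powers
  have h1 : ∀ i, ∃ k : ℕ, PW (w2 e w) k (ε i) := by
    intro i
    obtain ⟨k, hk⟩ := BP.exists (hε i)
    refine ⟨k * 1, BP.trans hk ?_⟩
    rintro _ ⟨x, rfl⟩
    exact pow_w2 w e x
  choose k hk using h1
  have h2 : ∀ i, ∃ M : ℕ, ∀ (G : Type) [Group G] [Finite G], Group.IsSolvable G →
      ∀ f : Fin d → G, PW w M (FreeGroup.lift f (ρ i)) := fun i => hGN r w d (ρ i) (hρ i)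
  choose l hl using h2
  obtain ⟨m, hm⟩ : ∃ m : ℕ, m = ∑ i, (k i + l i) := ⟨_, rfl⟩
  have hmi : ∀ i, k i + l i ≤ m := by
    intro i
    rw [hm]
    exact Finset.single_le_sum (f := fun i => k i + l i) (fun i _ => Nat.zero_le _)
      (Finset.mem_univ i)
  obtain ⟨M1, hM1⟩ := hHB r w e he s m
  obtain ⟨M2, hM2⟩ := hCB r w c e he hg M1
  obtain ⟨n, hn⟩ := hGC c s
  refine ⟨K.index, n * M2, ?_⟩
  intro G _ _ hG t ht
  have hsurj : Function.Surjective (FreeGroup.lift t) := range_lift_top t ht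
  have hHc : K.map (FreeGroup.lift t) =
      Subgroup.closure (Set.range fun i => FreeGroup.lift t (κ i)) := by
    rw [← hκ, MonoidHom.map_closure]
    congr 1
    ext x
    constructor
    · rintro ⟨_, ⟨i, rfl⟩, rfl⟩
      exact ⟨i, rfl⟩
    · rintro ⟨i, rfl⟩
      exact ⟨_, ⟨i, rfl⟩, rfl⟩
  refine ⟨K.map (FreeGroup.lift t), ?_, ?_⟩
  · exact Nat.le_of_dvd (Nat.pos_of_ne_zero hKi.index_ne_zero)
      (Subgroup.index_map_dvd K hsurj)
  · have hsolv : Group.IsSolvable (K.map (FreeGroup.lift t)) := by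
      have := hG
      infer_instance
    have hκb : ∀ i, PW (w2 e w) m (FreeGroup.lift t (κ i)) := by
      intro i
      rw [hdec i, map_mul]
      exact (((hk i).map _).mul (pw_w2 e (hl i G hG t))).mono (hmi i)
    have hall : ∀ h ∈ K.map (FreeGroup.lift t), PW (w2 e w) M1 h := by
      intro h hh
      exact hM1 G (K.map (FreeGroup.lift t)) hsolv (fun i => FreeGroup.lift t (κ i)) hHc.symm
        hκb h hh
    obtain ⟨s', hs'⟩ : ∃ s' : Fin s → K.map (FreeGroup.lift t),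
        ∀ i, (s' i : G) = FreeGroup.lift t (κ i) :=
      ⟨fun i => ⟨FreeGroup.lift t (κ i), by
        rw [hHc]; exact Subgroup.subset_closure ⟨i, rfl⟩⟩, fun _ => rfl⟩
    have hs'c : Subgroup.closure (Set.range s') = ⊤ := by
      apply Subgroup.map_injective (K.map (FreeGroup.lift t)).subtype_injective
      rw [MonoidHom.map_closure, ← MonoidHom.range_eq_map, Subgroup.range_subtype]
      refine Eq.trans ?_ hHc.symm
      congr 1
      ext x
      constructor
      · rintro ⟨_, ⟨i, rfl⟩, rfl⟩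
        exact ⟨i, (hs' i).symm⟩
      · rintro ⟨i, rfl⟩
        exact ⟨_, ⟨i, rfl⟩, hs' i⟩
    intro g hg'
    rw [← Subgroup.top_subtype_lowerCentralSeries] at hg'
    obtain ⟨g', hg'', rfl⟩ := hg'
    have h3 := BP_map (K.map (FreeGroup.lift t)).subtype (hn _ hsolv s' hs'c g' hg'')
    refine BP.trans h3 ?_
    rintro _ ⟨_, ⟨h, rfl⟩, rfl⟩
    show PW w M2 ((K.map (FreeGroup.lift t)).subtype (scm c h))
    rw [scm_map]
    exact hM2 G hG _ fun i _ => hall _ (h i).2

end Pool.Agent.H26.GWD
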